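import Mathlib

/-!
Free group factors, combinatorial core: words in the free group on `w_{j,q}` and `u_i`.
-/

namespace Pool.Agent.H275R2.FGF
open Finset

/-- letters: `inl (j,q)` are the fixed letters `w_{j,q}`, `inr i` the moving letters `u_i` -/
abbrev Lt (k : ℕ) := (ℕ × ℕ) ⊕ Fin k

/-- the free group on the letters -/
abbrev Gam (k : ℕ) := FreeGroup (Lt k)

variable {k : ℕ}

/-- the letter `w_{j,q}` -/
def w (j q : ℕ) : Gam k := FreeGroup.of (Sum.inl (j, q))

/-- the letter `u_i` -/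
def u (i : Fin k) : Gam k := FreeGroup.of (Sum.inr i)

/-- positive initial word `w_{j,0} u_{c 1} … w_{j,l-1} u_{c l}` -/
def ap (c : ℕ → Fin k) (j : ℕ) : ℕ → Gam k
  | 0 => 1
  | l + 1 => ap c j l * (w j l * u (c (l + 1)))

/-- the word `g_j` with `L` moving letters -/
def gp (c : ℕ → Fin k) (L j : ℕ) : Gam k := ap c j L * w j L

/-- final word -/
def bp (c : ℕ → Fin k) (L j l : ℕ) : Gam k := (ap c j l)⁻¹ * gp c L j

/-- left part of the split of `g_σ` at the letter `l` -/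
def aa (c : ℕ → Fin k) (L : ℕ) (σ : ℕ × Bool) (l : ℕ) : Gam k :=
  if σ.2 then ap c σ.1 l else (bp c L σ.1 l)⁻¹

/-- right part of the split of `g_σ` at the letter `l` -/
def bb (c : ℕ → Fin k) (L : ℕ) (σ : ℕ × Bool) (l : ℕ) : Gam k :=
  if σ.2 then bp c L σ.1 l else (ap c σ.1 l)⁻¹

/-- `g_σ` -/
def gg (c : ℕ → Fin k) (L : ℕ) (σ : ℕ × Bool) : Gam k :=
  if σ.2 then gp c L σ.1 else (gp c L σ.1)⁻¹

/-- sign of `σ` -/
def sg (σ : ℕ × Bool) : ℤ := if σ.2 then 1 else -1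

/-- exponent of the letter `w_n` -/
def exh (n : ℕ × ℕ) : Gam k →* Multiplicative ℤ :=
  FreeGroup.lift (fun x => if x = Sum.inl n then Multiplicative.ofAdd 1 else 1)

/-- exponent of the letter `w_n` -/
def ex (n : ℕ × ℕ) (x : Gam k) : ℤ := Multiplicative.toAdd (exh n x)

/-- kill the letter `w_n` -/
def rl (n : ℕ × ℕ) : Gam k →* Gam k :=
  FreeGroup.lift (fun x => if x = Sum.inl n then 1 else FreeGroup.of x)

/-- the elements without the letter `w_n` -/
def NL (n : ℕ × ℕ) : Subgroup (Gam k) := (rl n).eqLocus (MonoidHom.id _)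

/-- the elements without the letters `w_{j,q}` -/
def NN (j : ℕ) : Subgroup (Gam k) := ⨅ q : ℕ, NL (j, q)

/-- an integral Heisenberg group -/
@[ext] structure Hei where
  a : ℤ
  b : ℤ
  c : ℤ

namespace Hei

instance : Mul Hei := ⟨fun x y => ⟨x.a + y.a, x.b + y.b, x.c + y.c + x.a * y.b⟩⟩
instance : One Hei := ⟨⟨0, 0, 0⟩⟩
instance : Inv Hei := ⟨fun x => ⟨-x.a, -x.b, -x.c + x.a * x.b⟩⟩

@[simp] lemma mul_a (x y : Hei) : (x * y).a = x.a + y.a := rfl
@[simp] lemma mul_b (x y : Hei) : (x * y).b = x.b + y.b := rfl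
@[simp] lemma mul_c (x y : Hei) : (x * y).c = x.c + y.c + x.a * y.b := rfl
@[simp] lemma one_a : (1 : Hei).a = 0 := rfl
@[simp] lemma one_b : (1 : Hei).b = 0 := rfl
@[simp] lemma one_c : (1 : Hei).c = 0 := rfl
@[simp] lemma inv_a (x : Hei) : (x⁻¹).a = -x.a := rfl
@[simp] lemma inv_b (x : Hei) : (x⁻¹).b = -x.b := rfl
@[simp] lemma inv_c (x : Hei) : (x⁻¹).c = -x.c + x.a * x.b := rfl

instance : Group Hei := Group.ofLeftAxioms
  (by intro x y z; ext <;> simp <;> ring)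
  (by intro x; ext <;> simp)
  (by intro x; ext <;> simp)

/-- powers of the first generator -/
def xpow : Multiplicative ℤ →* Hei where
  toFun n := ⟨Multiplicative.toAdd n, 0, 0⟩
  map_one' := rfl
  map_mul' x y := by ext <;> simp

/-- powers of the second generator -/
def ypow : Multiplicative ℤ →* Hei where
  toFun n := ⟨0, Multiplicative.toAdd n, 0⟩
  map_one' := rfl
  map_mul' x y := by ext <;> simp

end Hei

/-- `w_n ↦ X`, `w_m ↦ Y`, everything else `↦ 1` -/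
def hh (n m : ℕ × ℕ) : Gam k →* Hei :=
  FreeGroup.lift (fun x => if x = Sum.inl n then ⟨1, 0, 0⟩ else
    if x = Sum.inl m then ⟨0, 1, 0⟩ else 1)

section basics

lemma ex_mul (n : ℕ × ℕ) (x y : Gam k) : ex n (x * y) = ex n x + ex n y := by
  simp [ex]

lemma ex_inv (n : ℕ × ℕ) (x : Gam k) : ex n x⁻¹ = - ex n x := by
  simp [ex]

lemma ex_one (n : ℕ × ℕ) : ex n (1 : Gam k) = 0 := by
  simp [ex]

lemma ex_w (n : ℕ × ℕ) (j q : ℕ) : ex n (w j q : Gam k) = if n = (j, q) then 1 else 0 := by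
  unfold ex exh w
  rw [FreeGroup.lift_apply_of]
  by_cases h : n = (j, q)
  · simp [h]
  · have : ¬ ((Sum.inl (j, q) : Lt k) = Sum.inl n) := by
      intro h2; exact h (Sum.inl.inj h2).symm
    simp [h, this]

lemma ex_u (n : ℕ × ℕ) (i : Fin k) : ex n (u i : Gam k) = 0 := by
  unfold ex exh u
  rw [FreeGroup.lift_apply_of]
  simp

lemma mem_NL {n : ℕ × ℕ} {x : Gam k} : x ∈ NL n ↔ rl n x = x := by
  unfold NL
  exact Iff.rfl

lemma mem_NN {j : ℕ} {x : Gam k} : x ∈ NN j ↔ ∀ q, x ∈ NL (j, q) := by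
  unfold NN
  rw [Subgroup.mem_iInf]

lemma NN_le (j q : ℕ) {x : Gam k} (h : x ∈ NN j) : x ∈ NL (j, q) := mem_NN.1 h q

lemma w_mem_NL {n : ℕ × ℕ} {j q : ℕ} (h : n ≠ (j, q)) : (w j q : Gam k) ∈ NL n := by
  rw [mem_NL]
  unfold rl w
  rw [FreeGroup.lift_apply_of]
  have : ¬ ((Sum.inl (j, q) : Lt k) = Sum.inl n) := by
    intro h2; exact h (Sum.inl.inj h2).symm
  simp [this]

lemma u_mem_NL (n : ℕ × ℕ) (i : Fin k) : (u i : Gam k) ∈ NL n := by
  rw [mem_NL]
  unfold rl u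
  rw [FreeGroup.lift_apply_of]
  simp

lemma u_mem_NN (j : ℕ) (i : Fin k) : (u i : Gam k) ∈ NN j := mem_NN.2 fun _ => u_mem_NL _ _

lemma w_mem_NN {j j' q : ℕ} (h : j' ≠ j) : (w j q : Gam k) ∈ NN j' :=
  mem_NN.2 fun q' => w_mem_NL (by intro h2; exact h (congrArg Prod.fst h2))

lemma ex_of_mem_NL {n : ℕ × ℕ} {x : Gam k} (h : x ∈ NL n) : ex n x = 0 := by
  have key : (exh n).comp (rl n) = (1 : Gam k →* Multiplicative ℤ) := by
    refine FreeGroup.ext_hom _ _ fun a => ?_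
    simp only [MonoidHom.comp_apply, MonoidHom.one_apply, rl, exh, FreeGroup.lift_apply_of]
    by_cases h : a = Sum.inl n
    · simp [h]
    · simp [h]
  have h2 : exh n (rl n x) = 1 := by
    have := DFunLike.congr_fun key x
    simpa using this
  rw [mem_NL.1 h] at h2
  simp [ex, h2]

lemma ex_of_mem_NN {j q : ℕ} {x : Gam k} (h : x ∈ NN j) : ex (j, q) x = 0 :=
  ex_of_mem_NL (NN_le j q h)

lemma hh_x {n m : ℕ × ℕ} (hnm : n ≠ m) {x : Gam k} (h : x ∈ NL m) :
    hh n m x = ⟨ex n x, 0, 0⟩ := by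
  have key : (hh n m).comp (rl m) = (Hei.xpow.comp ((exh n).comp (rl m)) : Gam k →* Hei) := by
    refine FreeGroup.ext_hom _ _ fun a => ?_
    simp only [MonoidHom.comp_apply, rl, exh, hh, FreeGroup.lift_apply_of]
    by_cases h : a = Sum.inl m
    · simp [h]
    · by_cases h' : a = Sum.inl n
      · subst h'
        have : ¬ ((Sum.inl n : Lt k) = Sum.inl m) := h
        simp [this, Hei.xpow]
      · simp [h, h', Hei.xpow]
        rfl
  have h2 : hh n m (rl m x) = Hei.xpow (exh n (rl m x)) := by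
    have := DFunLike.congr_fun key x
    simpa using this
  rw [mem_NL.1 h] at h2
  rw [h2]
  rfl

lemma hh_y {n m : ℕ × ℕ} (hnm : n ≠ m) {x : Gam k} (h : x ∈ NL n) :
    hh n m x = ⟨0, ex m x, 0⟩ := by
  have key : (hh n m).comp (rl n) = (Hei.ypow.comp ((exh m).comp (rl n)) : Gam k →* Hei) := by
    refine FreeGroup.ext_hom _ _ fun a => ?_
    simp only [MonoidHom.comp_apply, rl, exh, hh, FreeGroup.lift_apply_of]
    by_cases h : a = Sum.inl n
    · simp [h]
    · by_cases h' : a = Sum.inl m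
      · subst h'
        have : ¬ ((Sum.inl m : Lt k) = Sum.inl n) := h
        simp [this, Hei.ypow]
      · simp [h, h', Hei.ypow]
        rfl
  have h2 : hh n m (rl n x) = Hei.ypow (exh m (rl n x)) := by
    have := DFunLike.congr_fun key x
    simpa using this
  rw [mem_NL.1 h] at h2
  rw [h2]
  rfl

/-- **The order principle.** `X^s Y^r = Y^{r'} X^{s'}` forces `s r = 0`. -/
lemma order {n m : ℕ × ℕ} (hnm : n ≠ m) {z1 z2 z3 z4 : Gam k} (h : z1 * z2 = z3 * z4)
    (h1 : z1 ∈ NL m) (h2 : z2 ∈ NL n) (h3 : z3 ∈ NL n) (h4 : z4 ∈ NL m) :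
    ex n z1 = 0 ∨ ex m z2 = 0 := by
  have := congrArg (hh n m) h
  rw [map_mul, map_mul, hh_x hnm h1, hh_y hnm h2, hh_y hnm h3, hh_x hnm h4] at this
  have h5 := congrArg Hei.c this
  simp at h5
  exact h5

end basics

end Pool.Agent.H275R2.FGF
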