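import Pool.Agent.H275R2.FGF.Words

/-!
Free group factors, combinatorial core: the separation lemmas.
-/

namespace Pool.Agent.H275R2.FGF
open Finset

variable {k : ℕ} (c : ℕ → Fin k) (L : ℕ)

/-- an index at which the exponent of the left part does not vanish -/
def qe (L : ℕ) (σ : ℕ × Bool) : ℕ := if σ.2 then 0 else L

lemma ex_qe (σ : ℕ × Bool) {l : ℕ} (h1 : 1 ≤ l) (h2 : l ≤ L) :
    ex (σ.1, qe L σ) (aa c L σ l) ≠ 0 := by
  obtain ⟨j, s⟩ := σ
  rw [ex_aa c L _ _ _ h2]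
  cases s
  · simp [qe, h2]
  · simp [qe]; omega

lemma ex_qe' (σ : ℕ × Bool) {l : ℕ} (h1 : 1 ≤ l) (h2 : l ≤ L) :
    ex (σ.1, L - qe L σ) (bb c L σ l) ≠ 0 := by
  obtain ⟨j, s⟩ := σ
  rw [ex_bb c L _ _ _ h2]
  cases s
  · simp [qe]; omega
  · simp [qe, h2]

/-- the exponents determine the sign and the letter -/
lemma det_of_ex {σ τ : ℕ × Bool} {l m : ℕ} (hst : σ.1 = τ.1) (hl : 1 ≤ l) (hl' : l ≤ L)
    (hm : 1 ≤ m) (hm' : m ≤ L)
    (h : ∀ q, ex (σ.1, q) (aa c L σ l) = ex (σ.1, q) (aa c L τ m)) : σ = τ ∧ l = m := by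
  obtain ⟨j, s⟩ := σ
  obtain ⟨j', s'⟩ := τ
  simp only at hst
  subst hst
  have h0 := h 0
  have hl0 := h l
  have hm0 := h m
  rw [ex_aa c L _ _ _ hl', ex_aa c L _ _ _ hm'] at h0 hl0 hm0
  cases s <;> cases s' <;> simp at h0 hl0 hm0 ⊢ <;> split_ifs at h0 hl0 hm0 <;> omega

/-- **(C2)** the outcomes of the fresh part determine everything -/
theorem sepC2 {A B A' B' : Gam k} {σ τ : ℕ × Bool} {l m : ℕ} (hl : 1 ≤ l) (hl' : l ≤ L)
    (hm : 1 ≤ m) (hm' : m ≤ L) (hA : A ∈ NN σ.1) (_hB : B ∈ NN σ.1) (hA' : A' ∈ NN τ.1)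
    (_hB' : B' ∈ NN τ.1) (h1 : aa c L σ l * A⁻¹ = aa c L τ m * A'⁻¹)
    (h2 : B⁻¹ * bb c L σ l = B'⁻¹ * bb c L τ m) : σ = τ ∧ l = m ∧ A = A' ∧ B = B' := by
  by_cases hj : σ.1 = τ.1
  · have h3 : ∀ q, ex (σ.1, q) (aa c L σ l) = ex (σ.1, q) (aa c L τ m) := by
      intro q
      have := congrArg (ex (σ.1, q)) h1
      rw [ex_mul, ex_mul, ex_of_mem_NN (inv_mem hA), hj, ex_of_mem_NN (inv_mem hA'), ← hj] at this
      simpa using this
    obtain ⟨h4, h5⟩ := det_of_ex c L hj hl hl' hm hm' h3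
    subst h4 h5
    refine ⟨rfl, rfl, ?_, ?_⟩
    · simpa using h1
    · simpa using h2
  · exfalso
    have hne : ((σ.1, qe L σ) : ℕ × ℕ) ≠ (τ.1, qe L τ) := by
      intro h; exact hj (Prod.mk.inj h).1
    rcases order hne h1 (NN_le _ _ (aa_mem_NN c L (Ne.symm hj) l)) (NN_le _ _ (inv_mem hA))
      (NN_le _ _ (aa_mem_NN c L hj m)) (NN_le _ _ (inv_mem hA')) with h | h
    · exact ex_qe c L σ hl hl' h
    · have h3 := congrArg (ex (τ.1, qe L τ)) h1
      rw [ex_mul, ex_mul, h, ex_of_mem_NN (aa_mem_NN c L (Ne.symm hj) l),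
        ex_of_mem_NN (inv_mem hA')] at h3
      exact ex_qe c L τ hm hm' (by omega)

/-- the last factor of the left element of a child -/
noncomputable def zA (σ1 : ℕ × Bool) (l1 : ℕ) (σ2 : ℕ × Bool) (κ : ℕ ⊕ ℕ) : Gam k :=
  chA c L 1 σ1 l1 σ2 κ

lemma chA_eq (A : Gam k) (σ1 : ℕ × Bool) (l1 : ℕ) (σ2 : ℕ × Bool) (κ : ℕ ⊕ ℕ) :
    chA c L A σ1 l1 σ2 κ = A * zA c L σ1 l1 σ2 κ := by
  unfold zA
  rcases κ with m | r
  · simp only [chA]; group
  · simp only [chA]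
    split_ifs <;> group

lemma chA_mem_NN {A : Gam k} {j : ℕ} {σ1 σ2 : ℕ × Bool} (hA : A ∈ NN j) (h1 : j ≠ σ1.1)
    (h2 : j ≠ σ2.1) (l1 : ℕ) (κ : ℕ ⊕ ℕ) : chA c L A σ1 l1 σ2 κ ∈ NN j := by
  rcases κ with m | r
  · simp only [chA]
    exact mul_mem (mul_mem hA (inv_mem (aa_mem_NN c L h1 _))) (aa_mem_NN c L h2 _)
  · simp only [chA]
    split_ifs
    · exact mul_mem (mul_mem hA (inv_mem (aa_mem_NN c L h1 _))) (aa_mem_NN c L h1 _)
    · exact mul_mem (mul_mem (mul_mem hA (inv_mem (aa_mem_NN c L h1 _))) (gg_mem_NN c L h2))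
        (inv_mem (bb_mem_NN c L h1 _))

lemma chB_mem_NN {B : Gam k} {j : ℕ} {σ1 σ2 : ℕ × Bool} (hB : B ∈ NN j) (h1 : j ≠ σ1.1)
    (h2 : j ≠ σ2.1) (l1 : ℕ) (κ : ℕ ⊕ ℕ) : chB c L B σ1 l1 σ2 κ ∈ NN j := by
  rcases κ with m | r
  · simp only [chB]
    exact mul_mem (mul_mem (bb_mem_NN c L h2 _) (inv_mem (bb_mem_NN c L h1 _))) hB
  · simp only [chB]
    split_ifs
    · exact mul_mem (mul_mem (mul_mem (inv_mem (aa_mem_NN c L h1 _)) (gg_mem_NN c L h2))
        (inv_mem (bb_mem_NN c L h1 _))) hB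
    · exact mul_mem (mul_mem (bb_mem_NN c L h1 _) (inv_mem (bb_mem_NN c L h1 _))) hB

/-- the exponents of `w_{j1,q}` in the left element of a child, for one `q` -/
lemma exists_ex_zA {σ1 σ2 : ℕ × Bool} (hj : σ1.1 ≠ σ2.1) {l1 : ℕ} (hl : 1 ≤ l1) (hl' : l1 ≤ L)
    {κ : ℕ ⊕ ℕ} (hκ : OK L l1 κ) : ∃ q, ex (σ1.1, q) (zA c L σ1 l1 σ2 κ) ≠ 0 := by
  obtain ⟨j1, s1⟩ := σ1
  simp only at hj ⊢
  rcases κ with m | r
  · refine ⟨qe L (j1, s1), ?_⟩
    have := ex_qe c L (j1, s1) hl hl'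
    simp only [zA, chA, ex_mul, ex_inv, ex_one]
    rw [ex_of_mem_NN (aa_mem_NN c L hj m)]
    simp only at this
    omega
  · obtain ⟨hr1, hr2, hr3⟩ := hκ
    cases s1
    · by_cases hb : l1 < r
      · refine ⟨l1, ?_⟩
        have hb' : before ((j1, false) : ℕ × Bool) r l1 := by simpa [before] using hb
        simp only [zA, chA, if_pos hb', ex_mul, ex_inv, ex_one, ex_aa c L _ _ _ hl',
          ex_aa c L _ _ _ hr2]
        have : ¬ r ≤ l1 := by omega
        simp [hl', this]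
      · refine ⟨0, ?_⟩
        have hb' : ¬ before ((j1, false) : ℕ × Bool) r l1 := by simpa [before] using hb
        simp only [zA, chA, if_neg hb', ex_mul, ex_inv, ex_one, ex_aa c L _ _ _ hl',
          ex_bb c L _ _ _ hr2, ex_of_mem_NN (gg_mem_NN c L hj)]
        have : ¬ l1 ≤ 0 := by omega
        simp [this]; omega
    · by_cases hb : r < l1
      · refine ⟨r, ?_⟩
        have hb' : before ((j1, true) : ℕ × Bool) r l1 := by simpa [before] using hb
        simp only [zA, chA, if_pos hb', ex_mul, ex_inv, ex_one, ex_aa c L _ _ _ hl',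
          ex_aa c L _ _ _ hr2]
        simp [hb]
      · refine ⟨0, ?_⟩
        have hb' : ¬ before ((j1, true) : ℕ × Bool) r l1 := by simpa [before] using hb
        simp only [zA, chA, if_neg hb', ex_mul, ex_inv, ex_one, ex_aa c L _ _ _ hl',
          ex_bb c L _ _ _ hr2, ex_of_mem_NN (gg_mem_NN c L hj)]
        have : ¬ r ≤ 0 := by omega
        have h3 : 0 < l1 := by omega
        simp [this, h3]

/-- **(V)** the only invisible second step is the main one -/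
theorem sepV {A B : Gam k} {σ1 σ2 σ : ℕ × Bool} (hj : σ1.1 ≠ σ2.1)
    (hA1 : A ∈ NN σ1.1) (hB1 : B ∈ NN σ1.1) (hA2 : A ∈ NN σ2.1) (hB2 : B ∈ NN σ2.1)
    {l1 l : ℕ} (hl1 : 1 ≤ l1) (hl1' : l1 ≤ L) (hl : 1 ≤ l) (hl' : l ≤ L) {κ : ℕ ⊕ ℕ}
    (hκ : OK L l1 κ)
    (hX : aa c L σ l * (chA c L A σ1 l1 σ2 κ)⁻¹ ∈ NN σ.1)
    (hY : (chB c L B σ1 l1 σ2 κ)⁻¹ * bb c L σ l ∈ NN σ.1) : κ = Sum.inl l ∧ σ = σ2 := by
  have hX' : ∀ q, ex (σ.1, q) (aa c L σ l) = ex (σ.1, q) (chA c L A σ1 l1 σ2 κ) := by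
    intro q
    have := ex_of_mem_NN (q := q) hX
    rw [ex_mul, ex_inv] at this
    omega
  have hY' : ∀ q, ex (σ.1, q) (bb c L σ l) = ex (σ.1, q) (chB c L B σ1 l1 σ2 κ) := by
    intro q
    have := ex_of_mem_NN (q := q) hY
    rw [ex_mul, ex_inv] at this
    omega
  by_cases e2 : σ.1 = σ2.1
  · have hne : σ2.1 ≠ σ1.1 := Ne.symm hj
    rcases κ with m | r
    · obtain ⟨hm, hm'⟩ := hκ
      have h3 : ∀ q, ex (σ.1, q) (aa c L σ l) = ex (σ.1, q) (aa c L σ2 m) := by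
        intro q
        rw [hX' q, e2]
        simp only [chA, ex_mul, ex_inv, ex_of_mem_NN hA2, ex_of_mem_NN (aa_mem_NN c L hne l1)]
        omega
      obtain ⟨h4, h5⟩ := det_of_ex c L e2 hl hl' hm hm' h3
      subst h5
      exact ⟨rfl, h4⟩
    · exfalso
      obtain ⟨hr1, hr2, hr3⟩ := hκ
      by_cases hb : before σ1 r l1
      · refine ex_qe c L σ hl hl' ?_
        rw [hX', e2]
        simp only [chA, if_pos hb, ex_mul, ex_inv, ex_of_mem_NN hA2,
          ex_of_mem_NN (aa_mem_NN c L hne _)]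
        rfl
      · refine ex_qe' c L σ hl hl' ?_
        rw [hY', e2]
        simp only [chB, if_neg hb, ex_mul, ex_inv, ex_of_mem_NN hB2,
          ex_of_mem_NN (bb_mem_NN c L hne _)]
        rfl
  · exfalso
    by_cases e1 : σ.1 = σ1.1
    · rcases κ with m | r
      · have h0 := hX' 0
        have hL := hX' L
        rw [e1] at h0 hL
        simp only [chA, ex_mul, ex_inv, ex_of_mem_NN hA1, ex_of_mem_NN (aa_mem_NN c L hj _),
          ex_aa c L _ _ _ hl', ex_aa c L _ _ _ hl1'] at h0 hL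
        obtain ⟨j, s⟩ := σ
        obtain ⟨j1, s1⟩ := σ1
        simp only at e1
        subst e1
        cases s <;> cases s1 <;> simp at h0 hL <;> omega
      · obtain ⟨hr1, hr2, hr3⟩ := hκ
        by_cases hb : before σ1 r l1
        · have h0 := hX' 0
          have hL := hX' L
          rw [e1] at h0 hL
          simp only [chA, if_pos hb, ex_mul, ex_inv, ex_of_mem_NN hA1,
            ex_aa c L _ _ _ hl', ex_aa c L _ _ _ hl1', ex_aa c L _ _ _ hr2] at h0 hL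
          obtain ⟨j, s⟩ := σ
          obtain ⟨j1, s1⟩ := σ1
          simp only at e1
          subst e1
          unfold before at hb
          cases s <;> cases s1 <;> simp at h0 hL hb <;> split_ifs at h0 hL <;> omega
        · have h0 := hY' 0
          have hL := hY' L
          rw [e1] at h0 hL
          simp only [chB, if_neg hb, ex_mul, ex_inv, ex_of_mem_NN hB1,
            ex_bb c L _ _ _ hl', ex_bb c L _ _ _ hl1', ex_bb c L _ _ _ hr2] at h0 hL
          obtain ⟨j, s⟩ := σ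
          obtain ⟨j1, s1⟩ := σ1
          simp only at e1
          subst e1
          unfold before at hb
          cases s <;> cases s1 <;> simp at h0 hL hb <;> split_ifs at h0 hL <;> omega
    · -- older index
      obtain ⟨q', hq'⟩ := exists_ex_zA c L hj hl1 hl1' hκ (σ2 := σ2)
      have hne : ((σ.1, qe L σ) : ℕ × ℕ) ≠ (σ1.1, q') := by
        intro h; exact e1 (Prod.mk.inj h).1
      have hz : zA c L σ1 l1 σ2 κ ∈ NN σ.1 := chA_mem_NN c L (one_mem _) e1 e2 l1 κ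
      have heq : A * zA c L σ1 l1 σ2 κ =
          (aa c L σ l * (chA c L A σ1 l1 σ2 κ)⁻¹)⁻¹ * aa c L σ l := by
        rw [← chA_eq]; group
      rcases order hne heq (NN_le _ _ hA1) (NN_le _ _ hz) (NN_le _ _ (inv_mem hX))
        (NN_le _ _ (aa_mem_NN c L (Ne.symm e1) l)) with h | h
      · have h3 := congrArg (ex (σ.1, qe L σ)) heq
        rw [ex_mul, ex_mul, h, ex_of_mem_NN hz, ex_of_mem_NN (inv_mem hX)] at h3
        exact ex_qe c L σ hl hl' (by omega)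
      · exact hq' h

end Pool.Agent.H275R2.FGF
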