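import Pool.Agent.H275R2.FGF.Sep

/-!
Free group factors, combinatorial core: the children are distinct (C1).
-/

namespace Pool.Agent.H275R2.FGF
open Finset

variable {k : ℕ} (c : ℕ → Fin k) (L : ℕ)

lemma ex_gg_zero (σ : ℕ × Bool) : ex (σ.1, 0) (gg c L σ) ≠ 0 := by
  rw [ex_gg]
  cases σ.2 <;> simp

lemma sepG1 {σ τ : ℕ × Bool} {z z' : Gam k} (h : gg c L σ * z = gg c L τ * z')
    (hz : z ∈ NN σ.1) (hz' : z' ∈ NN τ.1) : σ = τ ∧ z = z' := by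
  by_cases hj : σ.1 = τ.1
  · have h0 := congrArg (ex (σ.1, 0)) h
    rw [ex_mul, ex_mul, ex_of_mem_NN hz, hj, ex_of_mem_NN hz', ex_gg, ex_gg] at h0
    have h3 : σ = τ := by
      obtain ⟨j, s⟩ := σ
      obtain ⟨j', s'⟩ := τ
      simp only at hj
      subst hj
      cases s <;> cases s' <;> simp at h0 ⊢
    subst h3
    exact ⟨rfl, by simpa using h⟩
  · exfalso
    have hne : ((σ.1, 0) : ℕ × ℕ) ≠ (τ.1, 0) := by
      intro h; exact hj (Prod.mk.inj h).1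
    rcases order hne h (NN_le _ _ (gg_mem_NN c L (Ne.symm hj))) (NN_le _ _ hz)
      (NN_le _ _ (gg_mem_NN c L hj)) (NN_le _ _ hz') with h3 | h3
    · exact ex_gg_zero c L σ h3
    · have h4 := congrArg (ex (τ.1, 0)) h
      rw [ex_mul, ex_mul, h3, ex_of_mem_NN (gg_mem_NN c L (Ne.symm hj)),
        ex_of_mem_NN hz'] at h4
      exact ex_gg_zero c L τ (by omega)

lemma sepG2 {σ τ : ℕ × Bool} {z z' : Gam k} (h : z * gg c L σ = z' * gg c L τ)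
    (hz : z ∈ NN σ.1) (hz' : z' ∈ NN τ.1) : σ = τ ∧ z = z' := by
  by_cases hj : σ.1 = τ.1
  · have h0 := congrArg (ex (σ.1, 0)) h
    rw [ex_mul, ex_mul, ex_of_mem_NN hz, hj, ex_of_mem_NN hz', ex_gg, ex_gg] at h0
    have h3 : σ = τ := by
      obtain ⟨j, s⟩ := σ
      obtain ⟨j', s'⟩ := τ
      simp only at hj
      subst hj
      cases s <;> cases s' <;> simp at h0 ⊢
    subst h3
    exact ⟨rfl, by simpa using h⟩
  · exfalso
    have hne : ((τ.1, 0) : ℕ × ℕ) ≠ (σ.1, 0) := by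
      intro h; exact hj (Prod.mk.inj h).1.symm
    rcases order hne h (NN_le _ _ hz) (NN_le _ _ (gg_mem_NN c L (Ne.symm hj)))
      (NN_le _ _ hz') (NN_le _ _ (gg_mem_NN c L hj)) with h3 | h3
    · have h4 := congrArg (ex (τ.1, 0)) h
      rw [ex_mul, ex_mul, h3, ex_of_mem_NN (gg_mem_NN c L (Ne.symm hj)),
        ex_of_mem_NN hz'] at h4
      exact ex_gg_zero c L τ (by omega)
    · exact ex_gg_zero c L σ h3

/-- `ω` for the children of type 2, left -/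
lemma exists_ex_wA {σ1 : ℕ × Bool} {l r : ℕ} (hl : 1 ≤ l) (hl' : l ≤ L) (hr : 1 ≤ r)
    (hr' : r ≤ L) (hb : before σ1 r l) :
    ∃ q, ex (σ1.1, q) ((aa c L σ1 l)⁻¹ * aa c L σ1 r) ≠ 0 := by
  obtain ⟨j1, s1⟩ := σ1
  simp only
  cases s1
  · refine ⟨l, ?_⟩
    have hb' : l < r := by simpa [before] using hb
    rw [ex_mul, ex_inv, ex_aa c L _ _ _ hl', ex_aa c L _ _ _ hr']
    have : ¬ r ≤ l := by omega
    simp [hl', this]
  · refine ⟨r, ?_⟩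
    have hb' : r < l := by simpa [before] using hb
    rw [ex_mul, ex_inv, ex_aa c L _ _ _ hl', ex_aa c L _ _ _ hr']
    simp [hb']

/-- `ω` for the children of type 2, right -/
lemma exists_ex_wB {σ1 : ℕ × Bool} {l r : ℕ} (hl : 1 ≤ l) (hl' : l ≤ L) (hr : 1 ≤ r)
    (hr' : r ≤ L) (hrl : r ≠ l) (hb : ¬ before σ1 r l) :
    ∃ q, ex (σ1.1, q) (bb c L σ1 r * (bb c L σ1 l)⁻¹) ≠ 0 := by
  obtain ⟨j1, s1⟩ := σ1
  simp only
  cases s1
  · refine ⟨r, ?_⟩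
    have hb' : ¬ l < r := by simpa [before] using hb
    have hb2 : r < l := by omega
    rw [ex_mul, ex_inv, ex_bb c L _ _ _ hl', ex_bb c L _ _ _ hr']
    simp [hb2]
  · refine ⟨l, ?_⟩
    have hb' : ¬ r < l := by simpa [before] using hb
    have hb2 : ¬ r ≤ l := by omega
    rw [ex_mul, ex_inv, ex_bb c L _ _ _ hl', ex_bb c L _ _ _ hr']
    simp [hb2, hl']

/-- the position of the last letter of `b` -/
def qf (L : ℕ) (σ : ℕ × Bool) : ℕ := if σ.2 then L else 0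

lemma aa_mem_qf (σ : ℕ × Bool) {l : ℕ} (hl : 1 ≤ l) (hl' : l ≤ L) :
    aa c L σ l ∈ NL (σ.1, qf L σ) := by
  obtain ⟨j, s⟩ := σ
  cases s
  · exact inv_mem (bp_mem_NL' c L hl' (by simp [qf]; omega))
  · exact ap_mem_NL c (by simpa [qf] using hl')

lemma ex_qf (σ : ℕ × Bool) {l : ℕ} (hl : 1 ≤ l) (hl' : l ≤ L) :
    ex (σ.1, qf L σ) (bb c L σ l) ≠ 0 := by
  obtain ⟨j, s⟩ := σ
  rw [ex_bb c L _ _ _ hl']
  cases s
  · simp [qf]; omega
  · simp [qf, hl']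

lemma sep_mix {A A' : Gam k} {σ1 τ1 τ2 : ℕ × Bool} {l m r r' : ℕ}
    (hl : 1 ≤ l) (hl' : l ≤ L) (hm : 1 ≤ m) (hm' : m ≤ L) (hr : 1 ≤ r) (hr' : r ≤ L)
    (hs : 1 ≤ r') (hs' : r' ≤ L) (hA : A ∈ NN σ1.1) (hA' : A' ∈ NN τ1.1)
    (hj : σ1.1 ≠ τ1.1) (ht : τ1.1 ≠ τ2.1) (hb : before σ1 r l)
    (h : A * (aa c L σ1 l)⁻¹ * aa c L σ1 r = A' * (aa c L τ1 m)⁻¹ * gg c L τ2 *
      (bb c L τ1 r')⁻¹) : False := by
  obtain ⟨q, hq⟩ := exists_ex_wA c L hl hl' hr hr' hb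
  have hne : ((τ1.1, qf L τ1) : ℕ × ℕ) ≠ (σ1.1, q) := by
    intro h; exact hj (Prod.mk.inj h).1.symm
  have hw : ((aa c L σ1 l)⁻¹ * aa c L σ1 r) ∈ NN τ1.1 :=
    mul_mem (inv_mem (aa_mem_NN c L (Ne.symm hj) l)) (aa_mem_NN c L (Ne.symm hj) r)
  have hz3 : A' * (aa c L τ1 m)⁻¹ * gg c L τ2 ∈ NL (τ1.1, qf L τ1) :=
    mul_mem (mul_mem (NN_le _ _ hA') (inv_mem (aa_mem_qf c L τ1 hm hm')))
      (NN_le _ _ (gg_mem_NN c L ht))
  rw [mul_assoc A] at h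
  rcases order hne h (NN_le _ _ hA) (NN_le _ _ hw) hz3
    (NN_le _ _ (inv_mem (bb_mem_NN c L hj r'))) with h3 | h3
  · have h4 := congrArg (ex (τ1.1, qf L τ1)) h
    rw [ex_mul, ex_mul _ (A' * _ * _), h3, ex_of_mem_NN hw, ex_of_mem_NL hz3, ex_inv] at h4
    exact ex_qf c L τ1 hs hs' (by omega)
  · exact hq h3

lemma num_aux {l m r r' : ℕ} (h : ∀ q : ℕ, (if q < r then (1 : ℤ) else 0) -
    (if q < l then 1 else 0) = (if q < r' then 1 else 0) - (if q < m then 1 else 0))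
    (h1 : r ≠ l) (h2 : r' ≠ m) : r = r' ∧ l = m := by
  have hr := h r
  have hl := h l
  have hr' := h r'
  have hm := h m
  simp only [lt_irrefl, if_false] at hr hl hr' hm
  rcases lt_or_gt_of_ne h1 with h3 | h3 <;> rcases lt_or_gt_of_ne h2 with h4 | h4
  · rw [if_pos h3] at hr
    rw [if_pos h4] at hr'
    rw [if_neg (show ¬ l < r by omega)] at hl
    rw [if_neg (show ¬ m < r' by omega)] at hm
    split_ifs at hr hr' <;> split_ifs at hl hm <;> omega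
  · rw [if_pos h3] at hr
    rw [if_neg (show ¬ r' < m by omega)] at hr'
    split_ifs at hr hr' <;> omega
  · rw [if_neg (show ¬ r < l by omega)] at hr
    rw [if_pos h4] at hr'
    split_ifs at hr hr' <;> omega
  · rw [if_neg (show ¬ r < l by omega)] at hr
    rw [if_neg (show ¬ r' < m by omega)] at hr'
    rw [if_pos h3] at hl
    rw [if_pos h4] at hm
    split_ifs at hr hr' <;> split_ifs at hl hm <;> omega

lemma ex_chA_inr {A : Gam k} {σ1 σ2 : ℕ × Bool} {l r : ℕ} (hj : σ1.1 ≠ σ2.1)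
    (hA1 : A ∈ NN σ1.1) (hl' : l ≤ L) (hr2 : r ≤ L) (q : ℕ) :
    ex (σ1.1, q) (chA c L A σ1 l σ2 (Sum.inr r)) = (if q < r then 1 else 0) -
      (if q < l then 1 else 0) + (open Classical in if before σ1 r l then 0 else
        (if q ≤ L then (if σ1.2 then -1 else 1) else 0)) := by
  obtain ⟨j, s⟩ := σ1
  simp only at hj hA1 ⊢
  by_cases hb : before (j, s) r l
  · simp only [chA, if_pos hb, ex_mul, ex_inv, ex_of_mem_NN hA1, ex_aa c L _ _ _ hl',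
      ex_aa c L _ _ _ hr2]
    cases s <;> simp only [if_true, Bool.false_eq_true, if_false] <;> split_ifs <;> omega
  · simp only [chA, if_neg hb, ex_mul, ex_inv, ex_of_mem_NN hA1, ex_aa c L _ _ _ hl',
      ex_bb c L _ _ _ hr2, ex_of_mem_NN (gg_mem_NN c L hj)]
    cases s <;> simp only [if_true, Bool.false_eq_true, if_false] <;> split_ifs <;> omega

lemma sep_key {A B A' B' : Gam k} {σ1 σ2 τ1 τ2 : ℕ × Bool} {l m r r' : ℕ}
    (hj : σ1.1 ≠ σ2.1) (hi : τ1.1 ≠ τ2.1) (he : σ1.1 = τ1.1)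
    (hA1 : A ∈ NN σ1.1) (hB1 : B ∈ NN σ1.1)
    (hA1' : A' ∈ NN τ1.1) (hB1' : B' ∈ NN τ1.1)
    (hl : 1 ≤ l) (hl' : l ≤ L) (hm : 1 ≤ m) (hm' : m ≤ L)
    (hr : 1 ≤ r) (hr2 : r ≤ L) (hr3 : r ≠ l) (hs : 1 ≤ r') (hs2 : r' ≤ L) (hs3 : r' ≠ m)
    (hA : chA c L A σ1 l σ2 (Sum.inr r) = chA c L A' τ1 m τ2 (Sum.inr r'))
    (hB : chB c L B σ1 l σ2 (Sum.inr r) = chB c L B' τ1 m τ2 (Sum.inr r')) :
    σ1 = τ1 ∧ l = m ∧ r = r' := by
  have hA1'' : A' ∈ NN σ1.1 := he ▸ hA1'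
  have hB1'' : B' ∈ NN σ1.1 := he ▸ hB1'
  have hi' : σ1.1 ≠ τ2.1 := he ▸ hi
  have h1 : σ1 = τ1 := by
    have h2 := congrArg₂ (· * ·) hA hB
    simp only [chA_mul_chB] at h2
    have h3 := congrArg (ex (σ1.1, 0)) h2
    simp only [ex_mul, ex_inv, ex_of_mem_NN hA1, ex_of_mem_NN hB1, ex_of_mem_NN hA1'',
      ex_of_mem_NN hB1'', ex_of_mem_NN (gg_mem_NN c L hj), ex_of_mem_NN (gg_mem_NN c L hi')] at h3
    have h4 := congrArg (ex (σ1.1, 0)) (aa_mul_bb c L σ1 l)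
    have h5 := congrArg (ex (σ1.1, 0)) (aa_mul_bb c L τ1 m)
    rw [ex_mul, ex_gg] at h4 h5
    obtain ⟨j, s⟩ := σ1
    obtain ⟨j', s'⟩ := τ1
    simp only at he
    subst he
    cases s <;> cases s' <;> simp at h3 h4 h5 ⊢ <;> omega
  subst h1
  have hq : ∀ q : ℕ, _ := fun q => congrArg (ex (σ1.1, q)) hA
  simp only [ex_chA_inr c L hj hA1 hl' hr2, ex_chA_inr c L hi' hA1'' hm' hs2] at hq
  have h0 := hq 0
  have hr0 : 0 < r := by omega
  have hl0 : 0 < l := by omega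
  have hr0' : 0 < r' := by omega
  have hm0 : 0 < m := by omega
  simp only [hr0, hl0, hr0', hm0, if_true, Nat.zero_le] at h0
  have hbb : before σ1 r l ↔ before σ1 r' m := by
    constructor
    · intro hb
      by_contra hb'
      rw [if_pos hb, if_neg hb'] at h0
      cases hs : σ1.2 <;> simp [hs] at h0
    · intro hb
      by_contra hb'
      rw [if_pos hb, if_neg hb'] at h0
      cases hs : σ1.2 <;> simp [hs] at h0
  have hq' : ∀ q : ℕ, (if q < r then (1 : ℤ) else 0) -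
      (if q < l then 1 else 0) = (if q < r' then 1 else 0) - (if q < m then 1 else 0) := by
    intro q
    have := hq q
    by_cases hb : before σ1 r l
    · rw [if_pos hb, if_pos (hbb.1 hb)] at this
      omega
    · rw [if_neg hb, if_neg (fun h => hb (hbb.2 h))] at this
      omega
  obtain ⟨h7, h8⟩ := num_aux hq' hr3 hs3
  exact ⟨rfl, h8, h7⟩

/-- **(C1)** the children are distinct -/
theorem sepC1 {A B A' B' : Gam k} {σ1 σ2 τ1 τ2 : ℕ × Bool} {l m : ℕ} {κ μ : ℕ ⊕ ℕ}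
    (hj : σ1.1 ≠ σ2.1) (hi : τ1.1 ≠ τ2.1)
    (hA1 : A ∈ NN σ1.1) (hB1 : B ∈ NN σ1.1) (hA2 : A ∈ NN σ2.1) (hB2 : B ∈ NN σ2.1)
    (hA1' : A' ∈ NN τ1.1) (hB1' : B' ∈ NN τ1.1) (hA2' : A' ∈ NN τ2.1) (hB2' : B' ∈ NN τ2.1)
    (hl : 1 ≤ l) (hl' : l ≤ L) (hm : 1 ≤ m) (hm' : m ≤ L) (hκ : OK L l κ) (hμ : OK L m μ)
    (hA : chA c L A σ1 l σ2 κ = chA c L A' τ1 m τ2 μ)
    (hB : chB c L B σ1 l σ2 κ = chB c L B' τ1 m τ2 μ) :
    A = A' ∧ B = B' ∧ σ1 = τ1 ∧ l = m ∧ σ2 = τ2 ∧ κ = μ := by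
  have main : ∀ {A B A' B' : Gam k} {σ1 σ2 τ1 τ2 : ℕ × Bool} {l m r0 : ℕ} {μ : ℕ ⊕ ℕ}
      (_ : σ1.1 ≠ σ2.1) (_ : τ1.1 ≠ τ2.1)
      (_ : A ∈ NN σ1.1) (_ : B ∈ NN σ1.1) (_ : A ∈ NN σ2.1) (_ : B ∈ NN σ2.1)
      (_ : A' ∈ NN τ1.1) (_ : B' ∈ NN τ1.1) (_ : A' ∈ NN τ2.1) (_ : B' ∈ NN τ2.1)
      (_ : 1 ≤ l) (_ : l ≤ L) (_ : 1 ≤ m) (_ : m ≤ L) (_ : OK L l (Sum.inl r0)) (_ : OK L m μ)
      (_ : chA c L A σ1 l σ2 (Sum.inl r0) = chA c L A' τ1 m τ2 μ)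
      (_ : chB c L B σ1 l σ2 (Sum.inl r0) = chB c L B' τ1 m τ2 μ),
      A = A' ∧ B = B' ∧ σ1 = τ1 ∧ l = m ∧ σ2 = τ2 ∧ Sum.inl r0 = μ := by
    intro A B A' B' σ1 σ2 τ1 τ2 l m r0 μ hj hi hA1 hB1 hA2 hB2 hA1' hB1' hA2' hB2' hl hl'
      hm hm' hκ hμ hA hB
    have hX : aa c L σ2 r0 * (chA c L A' τ1 m τ2 μ)⁻¹ ∈ NN σ2.1 := by
      rw [← hA]
      have : aa c L σ2 r0 * (chA c L A σ1 l σ2 (Sum.inl r0))⁻¹ = aa c L σ1 l * A⁻¹ := by
        simp only [chA]; group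
      rw [this]
      exact mul_mem (aa_mem_NN c L (Ne.symm hj) _) (inv_mem hA2)
    have hY : (chB c L B' τ1 m τ2 μ)⁻¹ * bb c L σ2 r0 ∈ NN σ2.1 := by
      rw [← hB]
      have : (chB c L B σ1 l σ2 (Sum.inl r0))⁻¹ * bb c L σ2 r0 = B⁻¹ * bb c L σ1 l := by
        simp only [chB]; group
      rw [this]
      exact mul_mem (inv_mem hB2) (bb_mem_NN c L (Ne.symm hj) _)
    obtain ⟨h1, h2⟩ := sepV c L hi hA1' hB1' hA2' hB2' hm hm' hκ.1 hκ.2 hμ hX hY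
    subst h1 h2
    simp only [chA, chB] at hA hB
    have h3 : aa c L σ1 l * A⁻¹ = aa c L τ1 m * A'⁻¹ := by
      have := mul_right_cancel hA
      have := congrArg (·⁻¹) this
      simpa using this
    have h4 : B⁻¹ * bb c L σ1 l = B'⁻¹ * bb c L τ1 m := by
      have := hB
      rw [mul_assoc, mul_assoc] at this
      have := mul_left_cancel this
      have := congrArg (·⁻¹) this
      simpa using this
    obtain ⟨h5, h6, h7, h8⟩ := sepC2 c L hl hl' hm hm' hA1 hB1 hA1' hB1' h3 h4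
    exact ⟨h7, h8, h5, h6, rfl, rfl⟩
  rcases κ with r0 | r
  · exact main hj hi hA1 hB1 hA2 hB2 hA1' hB1' hA2' hB2' hl hl' hm hm' hκ hμ hA hB
  rcases μ with r0 | r'
  · obtain ⟨h1, h2, h3, h4, h5, h6⟩ := main hi hj hA1' hB1' hA2' hB2' hA1 hB1 hA2 hB2 hm hm'
      hl hl' hμ hκ hA.symm hB.symm
    exact ⟨h1.symm, h2.symm, h3.symm, h4.symm, h5.symm, h6.symm⟩
  clear main
  obtain ⟨hr, hr2, hr3⟩ := hκ
  obtain ⟨hs, hs2, hs3⟩ := hμ
  by_cases he : σ1.1 = τ1.1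
  · -- same split index
    have key : σ1 = τ1 ∧ l = m ∧ r = r' :=
      sep_key c L hj hi he hA1 hB1 hA1' hB1' hl hl' hm hm' hr hr2 hr3 hs hs2 hs3 hA hB
    obtain ⟨h1, h2, h3⟩ := key
    subst h1 h2 h3
    by_cases hb : before σ1 r l
    · simp only [chA, chB, if_pos hb] at hA hB
      have h4 : A = A' := by simpa using hA
      subst h4
      have h5 : gg c L σ2 * ((bb c L σ1 l)⁻¹ * B) = gg c L τ2 * ((bb c L σ1 l)⁻¹ * B') := by
        rw [mul_assoc, mul_assoc, mul_assoc, mul_assoc] at hB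
        exact mul_left_cancel hB
      obtain ⟨h6, h7⟩ := sepG1 c L h5
        (mul_mem (inv_mem (bb_mem_NN c L (Ne.symm hj) _)) hB2)
        (mul_mem (inv_mem (bb_mem_NN c L (Ne.symm hi) _)) hB2')
      subst h6
      exact ⟨rfl, by simpa using h7, rfl, rfl, rfl, rfl⟩
    · simp only [chA, chB, if_neg hb] at hA hB
      have h4 : B = B' := by simpa using hB
      subst h4
      have h5 : (A * (aa c L σ1 l)⁻¹) * gg c L σ2 = (A' * (aa c L σ1 l)⁻¹) * gg c L τ2 :=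
        mul_right_cancel hA
      obtain ⟨h6, h7⟩ := sepG2 c L h5
        (mul_mem hA2 (inv_mem (aa_mem_NN c L (Ne.symm hj) _)))
        (mul_mem hA2' (inv_mem (aa_mem_NN c L (Ne.symm hi) _)))
      subst h6
      exact ⟨by simpa using h7, rfl, rfl, rfl, rfl, rfl⟩
  · exfalso
    by_cases hb : before σ1 r l <;> by_cases hb' : before τ1 r' m
    · simp only [chA, if_pos hb, if_pos hb'] at hA
      obtain ⟨q, hq⟩ := exists_ex_wA c L hl hl' hr hr2 hb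
      obtain ⟨q', hq'⟩ := exists_ex_wA c L hm hm' hs hs2 hb'
      have hne : ((τ1.1, q') : ℕ × ℕ) ≠ (σ1.1, q) := by
        intro h; exact he (Prod.mk.inj h).1.symm
      rw [mul_assoc, mul_assoc] at hA
      have hw : ((aa c L σ1 l)⁻¹ * aa c L σ1 r) ∈ NN τ1.1 :=
        mul_mem (inv_mem (aa_mem_NN c L (Ne.symm he) l)) (aa_mem_NN c L (Ne.symm he) r)
      have hw' : ((aa c L τ1 m)⁻¹ * aa c L τ1 r') ∈ NN σ1.1 :=
        mul_mem (inv_mem (aa_mem_NN c L he m)) (aa_mem_NN c L he r')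
      rcases order hne hA (NN_le _ _ hA1) (NN_le _ _ hw) (NN_le _ _ hA1') (NN_le _ _ hw')
        with h3 | h3
      · have h4 := congrArg (ex (τ1.1, q')) hA
        rw [ex_mul, ex_mul _ A', h3, ex_of_mem_NN hw, ex_of_mem_NN hA1'] at h4
        exact hq' (by omega)
      · exact hq h3
    · simp only [chA, if_pos hb, if_neg hb'] at hA
      exact sep_mix c L hl hl' hm hm' hr hr2 hs hs2 hA1 hA1' he hi hb hA
    · simp only [chA, if_neg hb, if_pos hb'] at hA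
      exact sep_mix c L hm hm' hl hl' hs hs2 hr hr2 hA1' hA1 (Ne.symm he) hj hb' hA.symm
    · simp only [chB, if_neg hb, if_neg hb'] at hB
      obtain ⟨q, hq⟩ := exists_ex_wB c L hl hl' hr hr2 hr3 hb
      obtain ⟨q', hq'⟩ := exists_ex_wB c L hm hm' hs hs2 hs3 hb'
      have hne : ((σ1.1, q) : ℕ × ℕ) ≠ (τ1.1, q') := by
        intro h; exact he (Prod.mk.inj h).1
      have hw : (bb c L σ1 r * (bb c L σ1 l)⁻¹) ∈ NN τ1.1 :=
        mul_mem (bb_mem_NN c L (Ne.symm he) r) (inv_mem (bb_mem_NN c L (Ne.symm he) l))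
      have hw' : (bb c L τ1 r' * (bb c L τ1 m)⁻¹) ∈ NN σ1.1 :=
        mul_mem (bb_mem_NN c L he r') (inv_mem (bb_mem_NN c L he m))
      rcases order hne hB (NN_le _ _ hw) (NN_le _ _ hB1) (NN_le _ _ hw') (NN_le _ _ hB1')
        with h3 | h3
      · exact hq h3
      · have h4 := congrArg (ex (τ1.1, q')) hB
        rw [ex_mul, ex_mul _ (bb c L τ1 r' * (bb c L τ1 m)⁻¹) B', h3, ex_of_mem_NN hw,
          ex_of_mem_NN hB1'] at h4
        exact hq' (by omega)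

end Pool.Agent.H275R2.FGF
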