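import Pool.Agent.H275R2.FGF.Defs

/-!
Free group factors, combinatorial core: exponents and supports of the words.
-/

namespace Pool.Agent.H275R2.FGF
open Finset

variable {k : ℕ} (c : ℕ → Fin k) (L : ℕ)

lemma ap_mem_NN {j j' : ℕ} (h : j' ≠ j) (l : ℕ) : ap c j l ∈ NN j' := by
  induction l with
  | zero => exact one_mem _
  | succ l ih => exact mul_mem ih (mul_mem (w_mem_NN h) (u_mem_NN _ _))

lemma gp_mem_NN {j j' : ℕ} (h : j' ≠ j) : gp c L j ∈ NN j' :=
  mul_mem (ap_mem_NN c h _) (w_mem_NN h)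

lemma bp_mem_NN {j j' : ℕ} (h : j' ≠ j) (l : ℕ) : bp c L j l ∈ NN j' :=
  mul_mem (inv_mem (ap_mem_NN c h _)) (gp_mem_NN c L h)

lemma aa_mem_NN {σ : ℕ × Bool} {j' : ℕ} (h : j' ≠ σ.1) (l : ℕ) : aa c L σ l ∈ NN j' := by
  unfold aa
  split_ifs
  · exact ap_mem_NN c h l
  · exact inv_mem (bp_mem_NN c L h l)

lemma bb_mem_NN {σ : ℕ × Bool} {j' : ℕ} (h : j' ≠ σ.1) (l : ℕ) : bb c L σ l ∈ NN j' := by
  unfold bb
  split_ifs
  · exact bp_mem_NN c L h l
  · exact inv_mem (ap_mem_NN c h l)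

lemma gg_mem_NN {σ : ℕ × Bool} {j' : ℕ} (h : j' ≠ σ.1) : gg c L σ ∈ NN j' := by
  unfold gg
  split_ifs
  · exact gp_mem_NN c L h
  · exact inv_mem (gp_mem_NN c L h)

lemma aa_mul_bb (σ : ℕ × Bool) (l : ℕ) : aa c L σ l * bb c L σ l = gg c L σ := by
  unfold aa bb gg bp
  split_ifs <;> simp

lemma bp_step (j : ℕ) {l : ℕ} (h : l < L) :
    bp c L j l = w j l * u (c (l + 1)) * bp c L j (l + 1) := by
  unfold bp
  simp only [ap]
  group

lemma ap_mem_NL {j q l : ℕ} (h : l ≤ q) : ap c j l ∈ NL (j, q) := by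
  induction l with
  | zero => exact one_mem _
  | succ l ih =>
    refine mul_mem (ih (by omega)) (mul_mem (w_mem_NL ?_) (u_mem_NL _ _))
    intro h2
    have := congrArg Prod.snd h2
    simp at this
    omega

lemma bp_mem_NL {j q : ℕ} : ∀ (d l : ℕ), l + d = L → q < l → bp c L j l ∈ NL (j, q) := by
  intro d
  induction d with
  | zero =>
    intro l hl hq
    have : l = L := by omega
    subst this
    have h1 : bp c l j l = w j l := by
      unfold bp gp
      group
    rw [h1]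
    refine w_mem_NL ?_
    intro h2
    have := congrArg Prod.snd h2
    simp at this
    omega
  | succ d ih =>
    intro l hl hq
    rw [bp_step c L j (show l < L by omega)]
    refine mul_mem (mul_mem (w_mem_NL ?_) (u_mem_NL _ _)) (ih (l + 1) (by omega) (by omega))
    intro h2
    have := congrArg Prod.snd h2
    simp at this
    omega

lemma bp_mem_NL' {j q l : ℕ} (hl : l ≤ L) (h : q < l) : bp c L j l ∈ NL (j, q) :=
  bp_mem_NL c L (L - l) l (by omega) h

lemma ex_ap (j q j' l : ℕ) : ex (j, q) (ap c j' l) = if j = j' ∧ q < l then 1 else 0 := by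
  induction l with
  | zero => simp [ap, ex_one]
  | succ l ih =>
    simp only [ap, ex_mul, ih, ex_w, ex_u, Prod.mk.injEq, add_zero]
    by_cases h : j = j'
    · subst h
      simp only [true_and]
      split_ifs <;> omega
    · simp [h]

lemma ex_gp (j q j' : ℕ) : ex (j, q) (gp c L j') = if j = j' ∧ q ≤ L then 1 else 0 := by
  simp only [gp, ex_mul, ex_ap, ex_w, Prod.mk.injEq]
  by_cases h : j = j'
  · subst h
    simp only [true_and]
    split_ifs <;> omega
  · simp [h]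

lemma ex_bp (j q j' : ℕ) {l : ℕ} (hl : l ≤ L) :
    ex (j, q) (bp c L j' l) = if j = j' ∧ l ≤ q ∧ q ≤ L then 1 else 0 := by
  simp only [bp, ex_mul, ex_inv, ex_ap, ex_gp]
  by_cases h : j = j'
  · subst h
    simp only [true_and]
    split_ifs <;> omega
  · simp [h]

lemma ex_aa (j q : ℕ) (σ : ℕ × Bool) {l : ℕ} (hl : l ≤ L) :
    ex (j, q) (aa c L σ l) = if j = σ.1 then
      (if σ.2 then (if q < l then 1 else 0) else (if l ≤ q ∧ q ≤ L then -1 else 0)) else 0 := by
  obtain ⟨j', s⟩ := σ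
  cases s
  · simp only [aa, ex_inv, ex_bp c L j q j' hl, Bool.false_eq_true, if_false]
    by_cases h : j = j'
    · simp only [h, true_and, if_true]
      split_ifs <;> simp
    · simp [h]
  · simp only [aa, ex_ap, if_true]
    by_cases h : j = j'
    · simp [h]
    · simp [h]

lemma ex_bb (j q : ℕ) (σ : ℕ × Bool) {l : ℕ} (hl : l ≤ L) :
    ex (j, q) (bb c L σ l) = if j = σ.1 then
      (if σ.2 then (if l ≤ q ∧ q ≤ L then 1 else 0) else (if q < l then -1 else 0)) else 0 := by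
  obtain ⟨j', s⟩ := σ
  cases s
  · simp only [bb, ex_inv, ex_ap, Bool.false_eq_true, if_false]
    by_cases h : j = j'
    · simp only [h, true_and, if_true]
      split_ifs <;> simp
    · simp [h]
  · simp only [bb, ex_bp c L j q j' hl, if_true]
    by_cases h : j = j'
    · simp [h]
    · simp [h]

lemma ex_gg (j q : ℕ) (σ : ℕ × Bool) :
    ex (j, q) (gg c L σ) = if j = σ.1 then
      (if q ≤ L then (if σ.2 then 1 else -1) else 0) else 0 := by
  obtain ⟨j', s⟩ := σ
  cases s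
  · simp only [gg, ex_inv, ex_gp, Bool.false_eq_true, if_false]
    by_cases h : j = j'
    · simp only [h, true_and, if_true]
      split_ifs <;> simp
    · simp [h]
  · simp only [gg, ex_gp, if_true]
    by_cases h : j = j'
    · simp [h]
    · simp [h]

/-- the letter `r` is before the letter `l` in `g_σ` -/
def before (σ : ℕ × Bool) (r l : ℕ) : Prop := if σ.2 then r < l else l < r

/-- left element of a child -/
noncomputable def chA (A : Gam k) (σ1 : ℕ × Bool) (l1 : ℕ) (σ2 : ℕ × Bool) : ℕ ⊕ ℕ → Gam k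
  | Sum.inl m => A * (aa c L σ1 l1)⁻¹ * aa c L σ2 m
  | Sum.inr r => open Classical in if before σ1 r l1 then A * (aa c L σ1 l1)⁻¹ * aa c L σ1 r
      else A * (aa c L σ1 l1)⁻¹ * gg c L σ2 * (bb c L σ1 r)⁻¹

/-- right element of a child -/
noncomputable def chB (B : Gam k) (σ1 : ℕ × Bool) (l1 : ℕ) (σ2 : ℕ × Bool) : ℕ ⊕ ℕ → Gam k
  | Sum.inl m => bb c L σ2 m * (bb c L σ1 l1)⁻¹ * B
  | Sum.inr r => open Classical in if before σ1 r l1 then
      (aa c L σ1 r)⁻¹ * gg c L σ2 * (bb c L σ1 l1)⁻¹ * B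
      else bb c L σ1 r * (bb c L σ1 l1)⁻¹ * B

lemma chA_mul_chB (A B : Gam k) (σ1 : ℕ × Bool) (l1 : ℕ) (σ2 : ℕ × Bool) (κ : ℕ ⊕ ℕ) :
    chA c L A σ1 l1 σ2 κ * chB c L B σ1 l1 σ2 κ =
      A * (aa c L σ1 l1)⁻¹ * gg c L σ2 * (bb c L σ1 l1)⁻¹ * B := by
  rcases κ with m | r
  · simp only [chA, chB, ← aa_mul_bb c L σ2 m]
    group
  · simp only [chA, chB]
    split_ifs
    · group
    · group

/-- the range of letters -/
def OK (l1 : ℕ) : ℕ ⊕ ℕ → Prop
  | Sum.inl m => 1 ≤ m ∧ m ≤ L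
  | Sum.inr r => 1 ≤ r ∧ r ≤ L ∧ r ≠ l1

end Pool.Agent.H275R2.FGF
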